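import Pool.Agent.X263.AL.Stm

/-!
# Project AL, part GEN: generic maps are rigid
-/

set_option autoImplicit false

namespace Pool.Agent.X121.GN

open Finset Polynomial
open Pool.Agent.X328.GN
open Pool.Agent.X328.FP (vl)
open Pool.Agent.X263.AL (Per mu mults Rigid Exceptional)

universe u v

section

variable {K : Type u} [Field K] (d : ℕ)

lemma nu_monic (hd : 2 ≤ d) (t : Ix d → K) : (nu d t).Monic ∧ (nu d t).natDegree = d := by
  have h : (∑ i : Fin (d - 1), C (t (Sum.inl i)) * X ^ (i.1 + 1) : K[X]).degree < d := by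
    have h' : (∑ i : Fin (d - 1), C (t (Sum.inl i)) * X ^ (i.1 + 1) : K[X]).natDegree ≤ d - 1 := by
      refine natDegree_sum_le_of_forall_le _ _ fun i _ => ?_
      refine (natDegree_C_mul_X_pow_le _ _).trans ?_
      have := i.2
      omega
    refine (degree_le_of_natDegree_le h').trans_lt ?_
    exact_mod_cast (by omega : d - 1 < d)
  refine ⟨monic_X_pow_add h, ?_⟩
  rw [nu, natDegree_add_eq_left_of_degree_lt, natDegree_X_pow]
  rw [degree_X_pow]
  exact h

lemma de_deg (hd : 2 ≤ d) (t : Ix d → K) : (de d t).natDegree < d := by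
  have h : (∑ i : Fin (d - 1), C (t (Sum.inr i)) * X ^ (i.1 + 1) : K[X]).natDegree ≤ d - 1 := by
    refine natDegree_sum_le_of_forall_le _ _ fun i _ => ?_
    refine (natDegree_C_mul_X_pow_le _ _).trans ?_
    have := i.2
    omega
  refine lt_of_le_of_lt (natDegree_add_le _ _) ?_
  rw [natDegree_C]
  omega

/-- the multipliers of the fixed points of the third iterate are multipliers of cycles -/
lemma ml_mem (hIT : S_IT.{u}) (hd : 2 ≤ d) (κ : Ix d → K)
    (hco : IsCoprime (nu d κ) (de d κ)) (x : K) (hx : (Ph d κ).eval x = 0) :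
    ml d κ x ∈ mults d κ := by
  obtain ⟨hc, -, -, -, -, h5⟩ := hIT K d hd (nu d κ) (de d κ) hco (nu_monic d hd κ).1
    (nu_monic d hd κ).2 (de_deg d hd κ) 3
  rw [Ph, eval_sub, eval_mul, eval_X] at hx
  have hQ : (Q3 d κ).eval x ≠ 0 := by
    intro h0
    have hP : (P3 d κ).eval x = 0 := by
      rw [h0, mul_zero, sub_zero] at hx
      exact hx
    obtain ⟨a, b, hab⟩ := hc
    have hab' : a * P3 d κ + b * Q3 d κ = 1 := hab
    have h6 := congrArg (eval x) hab'
    rw [eval_add, eval_mul, eval_mul, hP, h0, mul_zero, mul_zero, add_zero, eval_one] at h6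
    exact zero_ne_one h6
  obtain ⟨g1, g2, g3⟩ := h5 x hQ
  refine ⟨3, x, by norm_num, ⟨g1, ?_⟩, g3⟩
  rw [← g2]
  show (P3 d κ).eval x / (Q3 d κ).eval x = x
  rw [div_eq_iff hQ]
  linear_combination hx

end

lemma prod_coeff_mem {k L : Type*} [Field k] [Field L] [Algebra k L] (F : IntermediateField k L)
    (g : L → L) (s : Multiset L) (h : ∀ x ∈ s, g x ∈ F) :
    ∀ j, ((s.map fun x => (X - C (g x) : L[X])).prod).coeff j ∈ F := by
  induction s using Multiset.induction_on with
  | empty =>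
    intro j
    rw [Multiset.map_zero, Multiset.prod_zero, coeff_one]
    split_ifs
    · exact one_mem F
    · exact zero_mem F
  | cons a s ih =>
    intro j
    rw [Multiset.map_cons, Multiset.prod_cons, coeff_mul]
    refine sum_mem fun p _ => mul_mem ?_ (ih (fun x hx => h x (Multiset.mem_cons_of_mem hx)) _)
    rw [coeff_sub, coeff_X, coeff_C]
    refine sub_mem ?_ ?_
    · split_ifs
      · exact one_mem F
      · exact zero_mem F
    · split_ifs
      · exact h a (Multiset.mem_cons_self a s)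
      · exact zero_mem F

/-- **GEN**: generic maps are rigid: there is `D ≠ 0` such that all maps with `D (κ) ≠ 0` are rigid. -/
theorem t_GEN (hSPEC : S_SPEC.{u}) (hCHI : S_CHI.{u, v}) (hIT : S_IT.{u}) :
    ∀ d : ℕ, 2 ≤ d → ∃ D : MvPolynomial (Ix d) ℚ, D ≠ 0 ∧
      ∀ (K : Type u) [Field K] [CharZero K] [IsAlgClosed K] (κ : Ix d → K),
        IsCoprime (nu d κ) (de d κ) → MvPolynomial.aeval κ D ≠ 0 → Rigid d κ := by
  intro d hd
  obtain ⟨D, M, G, hD, h⟩ := hSPEC d hd
  refine ⟨D, hD, fun K _ _ _ κ hco hκ => ?_⟩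
  obtain ⟨h1, h2, h3⟩ := h K κ hκ
  have hdeg : (Ph d κ).natDegree = d ^ 3 := by
    obtain ⟨-, -, g2, g3, -⟩ := hIT K d hd (nu d κ) (de d κ) hco (nu_monic d hd κ).1
      (nu_monic d hd κ).2 (de_deg d hd κ) 3
    have g2' : (P3 d κ).natDegree = d ^ 3 := g2
    have g3' : (Q3 d κ).natDegree < d ^ 3 := g3
    refine le_antisymm ?_ (le_natDegree_of_ne_zero h2)
    refine (natDegree_sub_le _ _).trans (max_le g2'.le ?_)
    refine natDegree_mul_le.trans ?_
    rw [natDegree_X]
    omega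
  obtain ⟨c, hc, hprod⟩ := hCHI.2 K d hd κ hco hdeg (IsAlgClosed.splits _)
  intro i
  obtain ⟨⟨m0, hm0, hne⟩, hsum⟩ := h3 i
  set F := IntermediateField.adjoin ℚ (mults d κ) with hF
  have hml : ∀ x ∈ (Ph d κ).roots, ml d κ x ∈ F := fun x hx =>
    IntermediateField.subset_adjoin _ _ (ml_mem d hIT hd κ hco x (isRoot_of_mem_roots hx))
  have hcf : ∀ j, (chi d κ).coeff j / (chi d κ).coeff (d ^ 3) ∈ F := by
    intro j
    rw [hprod, coeff_C_mul, coeff_C_mul, mul_div_mul_left _ _ hc]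
    exact div_mem (prod_coeff_mem F _ _ hml _) (prod_coeff_mem F _ _ hml _)
  let y : Fin (d ^ 3 + 1) → F := fun j => ⟨_, hcf j⟩
  have hG : ∀ m, MvPolynomial.aeval (fun j : Fin (d ^ 3 + 1) =>
      (chi d κ).coeff j / (chi d κ).coeff (d ^ 3)) (G i m) =
        algebraMap F K (MvPolynomial.aeval y (G i m)) := by
    intro m
    rw [← MvPolynomial.aeval_algebraMap_apply]
    rfl
  refine ⟨∑ m ∈ range (M + 1), C (MvPolynomial.aeval y (G i m)) * X ^ m, ?_, ?_⟩
  · intro h0
    apply hne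
    have h4 := congrArg (fun p : F[X] => p.coeff m0) h0
    simp only [finsetSum_coeff, coeff_C_mul, coeff_X_pow, coeff_zero, mul_ite, mul_one,
      mul_zero] at h4
    rw [Finset.sum_ite_eq, if_pos (Finset.mem_range.2 (by omega))] at h4
    rw [hG, h4, map_zero]
  · rw [map_sum, ← hsum]
    refine Finset.sum_congr rfl fun m _ => ?_
    rw [map_mul, map_pow, aeval_C, aeval_X, hG]

/-- there is `D ≠ 0` which vanishes at all exceptional parameters -/
theorem t_EXC (hSPEC : S_SPEC.{0}) (hCHI : S_CHI.{0, v}) (hIT : S_IT.{0}) :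
    ∀ d : ℕ, 2 ≤ d → ∃ D : MvPolynomial (Ix d) ℚ, D ≠ 0 ∧
      ∀ (K : Type u) [Field K] [CharZero K] (κ : Ix d → K),
        Exceptional d κ → MvPolynomial.aeval κ D = 0 := by
  intro d hd
  obtain ⟨D, hD, h⟩ := t_GEN hSPEC hCHI hIT d hd
  refine ⟨D, hD, fun K _ _ κ hκ => ?_⟩
  obtain ⟨Ω, _, _, _, κ', hr, hco, hs⟩ := hκ
  refine hs D ?_
  by_contra h0
  exact hr (h Ω κ' hco h0)

end Pool.Agent.X121.GN
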